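import Pool.Agent.Lib.MP_8a899a_lc.Large

set_option autoImplicit false

/-!
# Boolean algebras isomorphic to all their full-size subalgebras: singular cardinals and coverings

The definitions `HasStar` (property `(∗)_κ`) and `Superatomic` are in
`Pool/Agent/Lib/MP_8a899a_lc/Sub.lean`, the definition `WeakCover` (a family of fewer than `κ`
subsets of size less than `l` of a set of size `l` which covers all subsets of size at most `ν`;
the sizes are bounded below `l` if `l` has the cofinality of `κ`) is in
`Pool/Agent/Lib/MP_8a899a_lc/Large.lean`.
-/

universe u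

namespace Pool.Agent.Results.MP_8a899a_lc.LargeCovering

open Pool.Agent.Lib.MP_8a899a_lc Cardinal

/-- Let `κ` be a singular cardinal such that, for every `ν` with `cof κ ≤ ν < κ`, all sufficiently
large cardinals `l < κ` of cofinality at most `ν` have a covering family `WeakCover κ ν l`. (There
are no such `l` if `κ` is `ℵ_(o + ω)`.) Every Boolean algebra of cardinality `κ` which is
isomorphic to all its subalgebras of cardinality `κ` is superatomic. -/
theorem result (κ : Cardinal.{u}) (hκ : κ.IsSingular)
    (hcov : ∀ ν, κ.ord.cof ≤ ν → ν < κ →
      ∃ l₁ < κ, ∀ l, l₁ < l → l < κ → l.ord.cof ≤ ν → WeakCover κ ν l)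
    (B : Type u) [BooleanAlgebra B] (hB : HasStar κ B) : Superatomic B :=
  hB.superatomic_of_largeCover hκ hcov

end Pool.Agent.Results.MP_8a899a_lc.LargeCovering
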