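import Pool.Agent.Lib.MP_8a899a_lc.Subideals

set_option autoImplicit false

/-!
# Boolean algebras isomorphic to all their full-size subalgebras: the continuum function below a
singular cardinal

The definitions `HasStar` (property `(∗)_κ`) and `Superatomic` are in
`Pool/Agent/Lib/MP_8a899a_lc/Sub.lean`.
-/

universe u

namespace Pool.Agent.Results.MP_8a899a_lc.NotEventuallyConstant

open Pool.Agent.Lib.MP_8a899a_lc Cardinal

/-- Let `κ` be a singular cardinal such that the function `μ ↦ 2 ^ μ` is not eventually constant
below `κ`. Then every Boolean algebra of cardinality `κ` which is isomorphic to all its subalgebras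
of cardinality `κ` is superatomic. -/
theorem result (κ : Cardinal.{u}) (hκ : κ.IsSingular)
    (hpow : ∀ g < κ, ∃ μ < κ, (2 : Cardinal.{u}) ^ g < 2 ^ μ)
    (B : Type u) [BooleanAlgebra B] (hB : HasStar κ B) : Superatomic B :=
  hB.superatomic_of_not_constant hκ hpow

end Pool.Agent.Results.MP_8a899a_lc.NotEventuallyConstant
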