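import Pool.Agent.Lib.MP_8a899a_lc.StrongLimit

set_option autoImplicit false

/-!
# Boolean algebras isomorphic to all their full-size subalgebras

The definitions `HasStar` (property `(∗)_κ`) and `Superatomic` are in
`Pool/Agent/Lib/MP_8a899a_lc/Sub.lean`.
-/

universe u

namespace Pool.Agent.Results.MP_8a899a_lc.RegularOrStrongLimit

open Pool.Agent.Lib.MP_8a899a_lc Cardinal

/-- Let `κ` be a regular cardinal or a strong limit cardinal. Every Boolean algebra of
cardinality `κ` which is isomorphic to all its subalgebras of cardinality `κ` is superatomic. -/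
theorem result (κ : Cardinal.{u}) (hκ : κ.IsRegular ∨ κ.IsStrongLimit)
    (B : Type u) [BooleanAlgebra B] (hB : HasStar κ B) : Superatomic B := by
  rcases hκ with h | h
  · exact hB.superatomic h
  · exact hB.superatomic_of_strongLimit h

end Pool.Agent.Results.MP_8a899a_lc.RegularOrStrongLimit
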