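import Pool.Agent.Lib.MP_8a899a_lc.AmpB

set_option autoImplicit false

/-!
# Boolean algebras isomorphic to all their full-size subalgebras: singular cardinals without a
strong limit cardinal of the same cofinality below

The definitions `HasStar` (property `(∗)_κ`) and `Superatomic` are in
`Pool/Agent/Lib/MP_8a899a_lc/Sub.lean`.
-/

universe u

namespace Pool.Agent.Results.MP_8a899a_lc.SingularBelowStrongLimit

open Pool.Agent.Lib.MP_8a899a_lc Cardinal

/-- Let `κ` be a singular cardinal of cofinality `λ` such that `λ` is `ω` or less than `2 ^ χ` for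
some `χ < λ`, and no strong limit cardinal strictly between `λ` and `κ` has cofinality `λ`. Every
Boolean algebra of cardinality `κ` which is isomorphic to all its subalgebras of cardinality `κ` is
superatomic. -/
theorem result (κ : Cardinal.{u}) (hκ : κ.IsSingular)
    (hcof : κ.ord.cof = ℵ₀ ∨ ∃ χ < κ.ord.cof, κ.ord.cof < 2 ^ χ)
    (hsl : ∀ θ, κ.ord.cof < θ → θ < κ → θ.IsStrongLimit → θ.ord.cof ≠ κ.ord.cof)
    (B : Type u) [BooleanAlgebra B] (hB : HasStar κ B) : Superatomic B :=
  hB.superatomic_of_no_strongLimit hκ hcof hsl

end Pool.Agent.Results.MP_8a899a_lc.SingularBelowStrongLimit
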